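import Pool.Agent.H57.CM.Targets

/-! Board chm (MP_6ab439_lc), row IDM: the idempotents of the monoid of distances. -/

namespace Pool.Agent.H42.CM

open Pool.Agent.H68.BP Pool.Agent.H58.SF Pool.Agent.H53.NR
open Pool.Agent.H72.CH Pool.Agent.H57.CM

theorem dm_mono {D : Type} [LinearOrder D] [AddCommMonoid D] [DM D] {a b c d : D} (h : a ≤ b)
    (h' : c ≤ d) : a + c ≤ b + d :=
  (DM.mono a b c h).trans (by rw [add_comm b c, add_comm b d]; exact DM.mono c d b h')

theorem dm_le_self {D : Type} [LinearOrder D] [AddCommMonoid D] [DM D] (a b : D) : a ≤ a + b := by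
  have h := dm_mono (le_refl a) (DM.zero_le b)
  rwa [add_zero] at h

/-- absorbing idempotents -/
theorem dm_abs {D : Type} [LinearOrder D] [AddCommMonoid D] [DM D] (a : D) :
    ∃ e : D, e + e = e ∧ a ≤ e ∧ ∀ b : D, b + a = b → b + e = b := by
  have hfin : Finite D := DM.fin
  obtain ⟨x, ⟨n, hn, hx⟩, hmax⟩ := Set.Finite.exists_maximal
    (Set.toFinite {y : D | ∃ n : ℕ, 1 ≤ n ∧ y = n • a}) ⟨a, 1, le_refl 1, (one_smul ℕ a).symm⟩
  have hm : ∀ y : D, (∃ n : ℕ, 1 ≤ n ∧ y = n • a) → y ≤ x := by
    intro y hy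
    rcases le_total y x with h | h
    · exact h
    · exact hmax hy h
  refine ⟨x, le_antisymm (hm _ ⟨n + n, by omega, ?_⟩) (dm_le_self x x),
    hm a ⟨1, le_refl 1, (one_smul ℕ a).symm⟩, ?_⟩
  · rw [hx, add_smul]
  · intro b hb
    have h : ∀ k : ℕ, b + k • a = b := by
      intro k
      induction k with
      | zero => simp
      | succ k ih => rw [succ_nsmul, ← add_assoc, ih, hb]
    rw [hx]
    exact h n

theorem ni_pos {D : Type} [LinearOrder D] [AddCommMonoid D] [DM D] (a : D) : 1 ≤ ni a := by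
  have hfin : Finite D := DM.fin
  obtain ⟨e, he, hae, -⟩ := dm_abs a
  have hne : Nonempty {e : D // e + e = e ∧ a ≤ e} := ⟨⟨e, he, hae⟩⟩
  exact Nat.card_pos

theorem ni_anti {D : Type} [LinearOrder D] [AddCommMonoid D] [DM D] (a b : D) (h : a ≤ b) :
    ni b ≤ ni a := by
  have hfin : Finite D := DM.fin
  refine Nat.card_le_card_of_injective
    (fun e : {e : D // e + e = e ∧ b ≤ e} => (⟨e.1, e.2.1, h.trans e.2.2⟩ :
      {e : D // e + e = e ∧ a ≤ e})) ?_
  intro x y hxy
  exact Subtype.ext (congrArg (fun z : {e : D // e + e = e ∧ a ≤ e} => z.1) hxy)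

theorem ni_lt {D : Type} [LinearOrder D] [AddCommMonoid D] [DM D] (a b : D) (h : a < b)
    (ha : a + a = a) : ni b < ni a := by
  classical
  have hfin : Finite D := DM.fin
  have hf : Fintype D := Fintype.ofFinite D
  have key : ∀ c : D, ni c = (Finset.univ.filter fun e : D => e + e = e ∧ c ≤ e).card := by
    intro c
    unfold ni
    rw [Nat.card_eq_fintype_card, Fintype.card_subtype]
  rw [key, key]
  apply Finset.card_lt_card
  rw [Finset.ssubset_iff_of_subset]
  · refine ⟨a, by simp [ha], ?_⟩
    simp only [Finset.mem_filter, not_and, not_le]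
    intro _ _
    exact h
  · intro e he
    simp only [Finset.mem_filter, Finset.mem_univ, true_and] at he ⊢
    exact ⟨he.1, h.le.trans he.2⟩

theorem ni_inj {D : Type} [LinearOrder D] [AddCommMonoid D] [DM D] (a b : D) (ha : a + a = a)
    (hb : b + b = b) (h : ni a = ni b) : a = b := by
  rcases lt_trichotomy a b with h' | h' | h'
  · have := ni_lt a b h' ha
    omega
  · exact h'
  · have := ni_lt b a h' hb
    omega

theorem pf_IDM : T_IDM := by
  classical
  intro D _ _ _
  have hfin : Finite D := DM.fin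
  have hf : Fintype D := Fintype.ofFinite D
  refine ⟨ni_pos, ni_anti, ?_⟩
  let I : Finset D := Finset.univ.filter fun e : D => e + e = e
  have hI : ∀ e : D, e ∈ I ↔ e + e = e := by intro e; simp [I]
  have hcard : I.card = ni (0 : D) := by
    unfold ni
    rw [Nat.card_eq_fintype_card, Fintype.card_subtype]
    congr 1
    ext e
    simp [I, DM.zero_le e]
  have h0 := ni_pos (0 : D)
  have himg : I.image (fun e => ni e - 1) = Finset.range I.card := by
    apply Finset.eq_of_subset_of_card_le
    · intro j hj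
      obtain ⟨e, he, rfl⟩ := Finset.mem_image.1 hj
      rw [Finset.mem_range, hcard]
      have h1 := ni_anti 0 e (DM.zero_le e)
      show ni e - 1 < ni 0
      omega
    · rw [Finset.card_image_of_injOn, Finset.card_range]
      intro a ha b hb hab
      have h1 := ni_pos a
      have h2 := ni_pos b
      simp only at hab
      exact ni_inj a b ((hI a).1 ha) ((hI b).1 hb) (by omega)
  have hex : ∀ j : ℕ, ∃ e : D, e + e = e ∧ (j ≤ nl D → ni e = j + 1) := by
    intro j
    by_cases hj : j ≤ nl D
    · have h1 : j ∈ I.image (fun e => ni e - 1) := by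
        rw [himg, Finset.mem_range, hcard]
        unfold nl at hj
        omega
      obtain ⟨e, he, hej⟩ := Finset.mem_image.1 h1
      have h2 := ni_pos e
      exact ⟨e, (hI e).1 he, fun _ => by omega⟩
    · exact ⟨0, add_zero 0, fun h => absurd h hj⟩
  choose s hs1 hs2 using hex
  have hle : ∀ j ≤ nl D, ∀ a : D, a ≤ s j ↔ j ≤ ni a - 1 := by
    intro j hj a
    have h1 := hs2 j hj
    constructor
    · intro h
      have h2 := ni_anti a (s j) h
      omega
    · intro h
      by_contra hc
      have h2 := ni_lt (s j) a (lt_of_not_ge hc) (hs1 j)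
      have h3 := ni_pos a
      omega
  have hall : ∀ e : D, e + e = e → ∃ j ≤ nl D, e = s j := by
    intro e he
    have h1 := ni_pos e
    have h2 := ni_anti 0 e (DM.zero_le e)
    have h3 : ni e - 1 ≤ nl D := by
      unfold nl
      omega
    refine ⟨ni e - 1, h3, ni_inj e _ he (hs1 _) ?_⟩
    rw [hs2 _ h3]
    omega
  refine ⟨s, hs1, hle, hs2, ?_, hall, ?_⟩
  · apply ni_inj _ _ (hs1 _) (add_zero 0)
    rw [hs2 _ le_rfl]
    unfold nl
    omega
  · intro a
    obtain ⟨e, he, hae, hab⟩ := dm_abs a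
    obtain ⟨j, hj, rfl⟩ := hall e he
    exact ⟨j, hj, hae, hab⟩

end Pool.Agent.H42.CM
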