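import Pool.Agent.H60.CM.Basic

/-!
# Stable surfaces of constant mean curvature spanning a circle: the auxiliary function
-/

set_option autoImplicit false

open Set Function MeasureTheory Filter Topology
open scoped Manifold ContDiff Matrix

open Pool.Agent.H60.CM

namespace Pool.Agent.H42.CM

noncomputable section

/-- the derivative of the auxiliary function -/
def pT (u : ℝ) : ℝ := Real.smoothTransition (u - 1)

/-- the auxiliary function -/
def pF (t : ℝ) : ℝ := ∫ u in (0 : ℝ)..t, pT u

theorem pT_smooth : ContDiff ℝ ∞ pT :=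
  (Real.smoothTransition.contDiff (n := ⊤)).comp (contDiff_id.sub contDiff_const)

theorem pT_cont : Continuous pT := pT_smooth.continuous

theorem pT_mono : Monotone pT := fun a b h =>
  Real.smoothTransition.monotone (by linarith)

theorem pT_nn (t : ℝ) : 0 ≤ pT t := Real.smoothTransition.nonneg _

theorem pT_le (t : ℝ) : pT t ≤ 1 := Real.smoothTransition.le_one _

theorem pT_zero {t : ℝ} (h : t ≤ 1) : pT t = 0 := Real.smoothTransition.zero_of_nonpos (by linarith)

theorem pT_one {t : ℝ} (h : 2 ≤ t) : pT t = 1 := Real.smoothTransition.one_of_one_le (by linarith)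

theorem pF_hd (t : ℝ) : HasDerivAt pF (pT t) t :=
  (pT_cont.integral_hasStrictDerivAt 0 t).hasDerivAt

theorem pF_deriv : deriv pF = pT := funext fun t => (pF_hd t).deriv

theorem pF_zero {t : ℝ} (h : t ≤ 1) : pF t = 0 := by
  have h1 : ∫ u in (0 : ℝ)..t, pT u = ∫ u in (0 : ℝ)..t, (0 : ℝ) := by
    apply intervalIntegral.integral_congr
    intro u hu
    have hu2 : u ≤ max 0 t := hu.2
    have h3 : max 0 t ≤ 1 := max_le zero_le_one h
    exact pT_zero (hu2.trans h3)
  unfold pF
  rw [h1]
  simp

theorem pT_ii (a b : ℝ) : IntervalIntegrable pT volume a b := pT_cont.intervalIntegrable a b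

theorem pF_split (a t : ℝ) : pF t = pF a + ∫ u in a..t, pT u := by
  unfold pF
  rw [intervalIntegral.integral_add_adjacent_intervals (pT_ii _ _) (pT_ii _ _)]

theorem pF_nn (t : ℝ) : 0 ≤ pF t := by
  rcases le_total t 1 with h | h
  · rw [pF_zero h]
  · exact intervalIntegral.integral_nonneg (by linarith) fun u _ => pT_nn u

theorem pF_le_of {a t : ℝ} (h : a ≤ t) {c : ℝ} (hc : ∀ u ∈ Icc a t, pT u ≤ c) :
    ∫ u in a..t, pT u ≤ (t - a) * c := by
  have h1 := intervalIntegral.integral_mono_on h (pT_ii a t)
    (intervalIntegrable_const (c := c)) hc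
  simpa using h1

theorem pF_up (t : ℝ) : pF t ≤ |t| := by
  rcases le_total t 1 with h | h
  · rw [pF_zero h]
    exact abs_nonneg t
  · have h0 : (0 : ℝ) ≤ t := by linarith
    rw [abs_of_nonneg h0]
    have h1 := pF_le_of h0 (c := 1) fun u _ => pT_le u
    unfold pF
    linarith

theorem pF_lin (t : ℝ) : |t * pT t - pF t| ≤ 2 := by
  rcases le_total t 1 with h | h
  · rw [pF_zero h, pT_zero h]
    simp
  · have h2 : pF t = ∫ u in (1 : ℝ)..t, pT u := by
      rw [pF_split 1 t, pF_zero le_rfl, zero_add]
    have h3 := pF_le_of h (c := pT t) fun u hu => pT_mono hu.2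
    have h4 := pT_nn t
    have h5 := pT_le t
    have h6 := pF_nn t
    have h7 : 0 ≤ t * pT t - pF t := by
      rw [h2]
      nlinarith
    rw [abs_of_nonneg h7]
    rcases le_total t 2 with h8 | h8
    · nlinarith
    · have h9 : pF t = pF 2 + ∫ u in (2 : ℝ)..t, pT u := pF_split 2 t
      have h10 : ∫ u in (2 : ℝ)..t, pT u = ∫ u in (2 : ℝ)..t, (1 : ℝ) := by
        apply intervalIntegral.integral_congr
        intro u hu
        rw [uIcc_of_le h8] at hu
        exact pT_one hu.1
      have h11 : ∫ u in (2 : ℝ)..t, (1 : ℝ) = t - 2 := by simp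
      have h12 := pF_nn 2
      rw [h9, h10, h11, pT_one h8]
      linarith

theorem pf_PHI : T_PHI := by
  refine ⟨pF, ?_⟩
  exact
    { smooth := by
        rw [contDiff_infty_iff_deriv]
        refine ⟨fun t => (pF_hd t).differentiableAt, ?_⟩
        rw [pF_deriv]
        exact pT_smooth
      zero := fun t ht => pF_zero ht
      d0 := fun t => by
        rw [pF_deriv]
        exact pT_nn t
      d1 := fun t => by
        rw [pF_deriv]
        exact pT_le t
      d2 := fun t ht => by
        rw [pF_deriv]
        exact pT_one ht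
      dd0 := fun t => by
        rw [pF_deriv]
        exact pT_mono.deriv_nonneg
      lin := fun t => by
        rw [pF_deriv]
        exact pF_lin t
      nn := pF_nn
      le := pF_up }

end

end Pool.Agent.H42.CM
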