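import Pool.Agent.H57.CM.Targets

/-! Board chm (MP_6ab439_lc), row PLV: levels of a pseudometric. -/

namespace Pool.Agent.H42.CM.PLV

open Pool.Agent.H68.BP Pool.Agent.H58.SF Pool.Agent.H53.NR
open Pool.Agent.H72.CH Pool.Agent.H57.CM

/-- monotonicity of the number of idempotents -/
theorem ni_le {D : Type} [LinearOrder D] [AddCommMonoid D] [DM D] (a c : D)
    (h : ∀ e : D, e + e = e → a ≤ e → c ≤ e) : ni a ≤ ni c := by
  have hfin : Finite D := DM.fin
  refine Nat.card_le_card_of_injective
    (fun e : {e : D // e + e = e ∧ a ≤ e} => (⟨e.1, e.2.1, h e.1 e.2.1 e.2.2⟩ :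
      {e : D // e + e = e ∧ c ≤ e})) ?_
  intro x y hxy
  exact Subtype.ext (congrArg (fun z : {e : D // e + e = e ∧ c ≤ e} => z.1) hxy)

theorem pf_PLV : T_PLV := by
  intro D V _ _ _ d hd
  have hfin : Finite D := DM.fin
  refine ⟨?_, ?_, ?_, ?_⟩
  · intro x y
    have h := ni_le (d x y) (0 : D) fun e _ _ => DM.zero_le e
    unfold ml nl
    omega
  · intro x
    unfold ml nl
    rw [hd.self]
  · intro x y
    unfold ml
    rw [hd.sym]
  · intro x y z
    have h := ni_le (max (d x y) (d y z)) (d x z) fun e he hm => by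
      have h1 : d x y ≤ e := (le_max_left _ _).trans hm
      have h2 : d y z ≤ e := (le_max_right _ _).trans hm
      calc d x z ≤ d x y + d y z := hd.tri x y z
        _ ≤ e + d y z := DM.mono _ _ _ h1
        _ = d y z + e := add_comm _ _
        _ ≤ e + e := DM.mono _ _ _ h2
        _ = e := he
    unfold ml
    rcases le_total (d x y) (d y z) with h' | h'
    · rw [max_eq_right h'] at h
      refine (min_le_right _ _).trans ?_
      omega
    · rw [max_eq_left h'] at h
      refine (min_le_left _ _).trans ?_
      omega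

end Pool.Agent.H42.CM.PLV
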