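import Pool.Agent.H60.CM.Basic

/-!
# Stable surfaces of constant mean curvature spanning a circle: regular zeros
-/

set_option autoImplicit false

open Set Function MeasureTheory Filter Topology
open scoped Manifold ContDiff Matrix

open Pool.Agent.H60.CM

namespace Pool.Agent.H42.CM

/-- a ball on which the function is positive, with a zero on its boundary -/
theorem touching (φ : E2 → ℝ) (y1 y2 : E2) (R : ℝ) (hR : 0 < R)
    (hc : ContinuousOn φ (Metric.closedBall y1 (3 * R))) (h1 : φ y1 ≤ 0) (h2 : dist y2 y1 < R)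
    (h3 : 0 < φ y2) :
    ∃ (z : E2) (R' : ℝ), 0 < R' ∧ Metric.closedBall y2 R' ⊆ Metric.closedBall y1 (3 * R) ∧
      dist z y2 = R' ∧ φ z = 0 ∧ ∀ y, dist y y2 < R' → 0 < φ y := by
  have hsub : Metric.closedBall y2 R ⊆ Metric.closedBall y1 (3 * R) := by
    intro y hy
    rw [Metric.mem_closedBall] at hy ⊢
    linarith [dist_triangle y y2 y1]
  have hK : IsCompact (Metric.closedBall y2 R ∩ φ ⁻¹' (Iic 0)) :=
    (isCompact_closedBall y2 R).of_isClosed_subset
      ((hc.mono hsub).preimage_isClosed_of_isClosed Metric.isClosed_closedBall isClosed_Iic)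
      inter_subset_left
  have hy1 : y1 ∈ Metric.closedBall y2 R ∩ φ ⁻¹' (Iic 0) := by
    refine ⟨?_, h1⟩
    rw [Metric.mem_closedBall, dist_comm]
    exact h2.le
  have hcd : Continuous fun y : E2 => dist y y2 := continuous_id.dist continuous_const
  obtain ⟨z, hzK, hzmin⟩ := hK.exists_isMinOn ⟨y1, hy1⟩ hcd.continuousOn
  have hmin : ∀ y ∈ Metric.closedBall y2 R ∩ φ ⁻¹' (Iic 0), dist z y2 ≤ dist y y2 := fun y hy =>
    hzmin hy
  have hz0 : φ z ≤ 0 := hzK.2
  have hlt : dist z y2 < R := by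
    have h4 := hmin y1 hy1
    rw [dist_comm y1 y2] at h4
    linarith
  have hpos : 0 < dist z y2 := by
    rw [dist_pos]
    intro h
    rw [h] at hz0
    linarith
  have hball : ∀ y, dist y y2 < dist z y2 → 0 < φ y := by
    intro y hy
    by_contra hcon
    have h5 : y ∈ Metric.closedBall y2 R ∩ φ ⁻¹' (Iic 0) := by
      refine ⟨?_, not_lt.1 hcon⟩
      rw [Metric.mem_closedBall]
      linarith
    have h6 := hmin y h5
    linarith
  refine ⟨z, dist z y2, hpos, ?_, rfl, ?_, hball⟩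
  · exact (Metric.closedBall_subset_closedBall hlt.le).trans hsub
  · refine le_antisymm hz0 ?_
    by_contra hcon
    have hneg : φ z < 0 := not_le.1 hcon
    have hn : Metric.closedBall y1 (3 * R) ∈ 𝓝 z := by
      refine Filter.mem_of_superset (Metric.ball_mem_nhds z hR) ?_
      intro y hy
      rw [Metric.mem_ball] at hy
      rw [Metric.mem_closedBall]
      linarith [dist_triangle y z y1, dist_triangle z y2 y1]
    have hca : ContinuousAt φ z := hc.continuousAt hn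
    have hev : ∀ᶠ y in 𝓝 z, φ y < 0 := hca.eventually (gt_mem_nhds hneg)
    have hcl : z ∈ closure (Metric.ball y2 (dist z y2)) := by
      rw [closure_ball y2 hpos.ne']
      exact Metric.mem_closedBall.2 le_rfl
    obtain ⟨y, hy, hyb⟩ := mem_closure_iff_nhds.1 hcl _ hev
    have h7 := hball y (Metric.mem_ball.1 hyb)
    have h8 : φ y < 0 := hy
    linarith

theorem pf_REG (h1 : T_PAT) (h2 : T_PDF) (h3 : T_PDE) (h4 : T_ELL) (h5 : T_HOP) (h6 : T_NNG) :
    T_REG := by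
  intro D a b B hBo hBi hBc hP hN
  have hsm : D.Sm (kf D.x D.N a b) := D.smkf a b
  have hcont : Continuous (kf D.x D.N a b) := Dat.Sm.cont D hsm
  obtain ⟨q1, hq1B, hq1f, hq1c⟩ : ∃ q1 ∈ B, kf D.x D.N a b q1 = 0 ∧
      q1 ∈ closure {p | p ∈ B ∧ 0 < kf D.x D.N a b p} := by
    by_contra hcon
    have hcl : closure {p | p ∈ B ∧ 0 < kf D.x D.N a b p} ⊆ {p | 0 ≤ kf D.x D.N a b p} :=
      closure_minimal (fun p hp => hp.2.le) (isClosed_le continuous_const hcont)
    have hkey : ∀ p ∈ B, kf D.x D.N a b p ≤ 0 →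
        p ∉ closure {p | p ∈ B ∧ 0 < kf D.x D.N a b p} := by
      intro p hpB hp0 hpc
      exact hcon ⟨p, hpB, le_antisymm hp0 (hcl hpc), hpc⟩
    have h7 := hBc {p | 0 < kf D.x D.N a b p} (closure {p | p ∈ B ∧ 0 < kf D.x D.N a b p})ᶜ
      (isOpen_lt continuous_const hcont) isClosed_closure.isOpen_compl (by
        intro p hp
        by_cases h8 : 0 < kf D.x D.N a b p
        · exact Or.inl h8
        · exact Or.inr (hkey p hp (not_lt.1 h8)))
      (by
        obtain ⟨p, hp, hp2⟩ := hP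
        exact ⟨p, hp, hp2⟩)
      (by
        obtain ⟨p, hp, hp2⟩ := hN
        exact ⟨p, hp, hkey p hp hp2⟩)
    obtain ⟨p, hpB, hp1, hp2⟩ := h7
    exact hp2 (subset_closure ⟨hpB, hp1⟩)
  obtain ⟨O, ψ, y1, hPc, hy1, hψ1, hOB⟩ := h1 D q1 B (hBi hq1B) hBo hq1B
  obtain ⟨ε, hε, hεO⟩ := Metric.isOpen_iff.1 hPc.isOpen y1 hy1
  have hR : 0 < ε / 4 := by linarith
  have hcb : Metric.closedBall y1 (3 * (ε / 4)) ⊆ O := by
    refine (Metric.closedBall_subset_ball ?_).trans hεO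
    linarith
  have hRO : Metric.ball y1 (ε / 4) ⊆ O :=
    (Metric.ball_subset_ball (by linarith)).trans hεO
  obtain ⟨q, ⟨y2, hy2, hψ2⟩, hq⟩ := mem_closure_iff.1 hq1c (ψ '' Metric.ball y1 (ε / 4))
    (hPc.im _ hRO Metric.isOpen_ball) ⟨y1, Metric.mem_ball_self hR, hψ1⟩
  have hsmO : ContDiffOn ℝ ∞ (kf D.x D.N a b ∘ ψ) O := by
    obtain ⟨m00, m01, m10, m11, _, hm⟩ := h2 D O ψ hPc y1 hy1
    exact (hm ℝ (kf D.x D.N a b) hsm).1
  obtain ⟨z, R', hR', hsub, hz, hz0, hball⟩ := touching (kf D.x D.N a b ∘ ψ) y1 y2 (ε / 4) hR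
    (hsmO.continuousOn.mono hcb) (by
      show kf D.x D.N a b (ψ y1) ≤ 0
      rw [hψ1, hq1f]) (Metric.mem_ball.1 hy2) (by
      show 0 < kf D.x D.N a b (ψ y2)
      rw [hψ2]
      exact hq.2)
  have hO' : Metric.closedBall y2 R' ⊆ O := hsub.trans hcb
  have hzO : z ∈ O := hO' (Metric.mem_closedBall.2 hz.le)
  have hsf : ∀ p, 0 ≤ sf D.x D.N p := by
    intro p
    unfold sf
    exact Finset.sum_nonneg fun k _ => (h6 _ _ _ _ (D.cmc.imm p)).1
  have hop := h5 O _ _ _ (h4 D O ψ hPc) y2 R' hR' hO' (kf D.x D.N a b ∘ ψ) hsmO (by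
    intro y hy
    have hyO : y ∈ O := hO' (Metric.mem_closedBall.2 hy.le)
    have hyp := hball y hy
    refine ⟨hyp, ?_⟩
    rw [h3 D O ψ hPc a b y hyO]
    have h9 : 0 < kf D.x D.N a b (ψ y) := hyp
    have h10 : 0 ≤ aw (D.x ∘ ψ) y := Real.sqrt_nonneg _
    have h11 := mul_nonneg (mul_nonneg (hsf (ψ y)) h9.le) h10
    linarith) z hz hz0
  refine ⟨ψ z, hOB ⟨z, hzO, rfl⟩, hz0, ?_⟩
  obtain ⟨m00, m01, m10, m11, _, hm⟩ := h2 D O ψ hPc z hzO
  obtain ⟨-, e0, e1⟩ := hm ℝ (kf D.x D.N a b) hsm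
  by_contra hcon
  rw [not_or, not_not, not_not] at hcon
  rw [hcon.1, hcon.2, smul_zero, smul_zero, add_zero] at e0 e1
  rcases hop with h12 | h12
  · exact h12 e0
  · exact h12 e1

end Pool.Agent.H42.CM
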